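import Pool.Agent.MP_ce43bb_an.H78.Base

/-! Part T: the vacuum state is a faithful trace, the key identity, and the bimodule trace. -/

set_option linter.unusedSectionVars false

open scoped InnerProductSpace

noncomputable section

namespace Pool.Agent.MP_ce43bb_an.H93
open Pool.Agent.MP_ce43bb_an.H78

variable {L Γ : Type} [DecidableEq L] [AddCommGroup Γ] [DecidableEq Γ]
  {H : Type} [NormedAddCommGroup H] [InnerProductSpace ℂ H] [CompleteSpace H]
  (F : Fock L Γ H) {n : ℕ}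

/-- Induction over the star algebra generated by self-adjoint elements. -/
theorem sa_induction {s : Set (H →L[ℂ] H)} (hs : ∀ x ∈ s, star x = x)
    {p : (H →L[ℂ] H) → Prop} (mem : ∀ x ∈ s, p x) (alg : ∀ c : ℂ, p (c • 1))
    (add : ∀ x ∈ StarAlgebra.adjoin ℂ s, ∀ y ∈ StarAlgebra.adjoin ℂ s, p x → p y → p (x + y))
    (mul : ∀ x ∈ StarAlgebra.adjoin ℂ s, ∀ y ∈ StarAlgebra.adjoin ℂ s, p x → p y → p (x * y))
    {a : H →L[ℂ] H} (ha : a ∈ StarAlgebra.adjoin ℂ s) : p a := by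
  have ha' : a ∈ Algebra.adjoin ℂ (s ∪ star s) := ha
  induction ha' using Algebra.adjoin_induction with
  | mem x hx =>
    rcases hx with hx | hx
    · exact mem x hx
    · have h1 : star x ∈ s := hx
      have h2 := hs _ h1
      rw [star_star] at h2
      rw [h2]
      exact mem _ h1
  | algebraMap c => rw [Algebra.algebraMap_eq_smul_one]; exact alg c
  | add x y hx hy ihx ihy => exact add x hx y hy (ihx hx) (ihy hy)
  | mul x y hx hy ihx ihy => exact mul x hx y hy (ihx hx) (ihy hy)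

theorem commute_of_sa {s : Set (H →L[ℂ] H)} (hs : ∀ x ∈ s, star x = x) {T : H →L[ℂ] H}
    (h : ∀ x ∈ s, Commute T x) {a : H →L[ℂ] H} (ha : a ∈ StarAlgebra.adjoin ℂ s) :
    Commute T a :=
  sa_induction hs (p := fun a => Commute T a) h
    (fun c => (Commute.one_right T).smul_right c)
    (fun _ _ _ _ hx hy => hx.add_right hy) (fun _ _ _ _ hx hy => hx.mul_right hy) ha

theorem tau_add (Ω : H) (x y : H →L[ℂ] H) : tau Ω (x + y) = tau Ω x + tau Ω y := by
  simp [tau]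

theorem tau_sub (Ω : H) (x y : H →L[ℂ] H) : tau Ω (x - y) = tau Ω x - tau Ω y := by
  simp [tau]

theorem tau_mul (Ω : H) (x y : H →L[ℂ] H) : tau Ω (x * y) = ⟪star x Ω, y Ω⟫_ℂ := by
  rw [Fock.inner_star_left]; rfl

/-- The generator trick. -/
theorem tau_gen (Ω : H) {x g g' : H →L[ℂ] H} (hg : star g = g) (hg' : star g' = g')
    (h : g Ω = g' Ω) (hc : Commute x g') : tau Ω (x * g) = tau Ω (g * x) := by
  have h1 : (x * g) Ω = (g' * x) Ω := by
    rw [← hc.eq]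
    change x (g Ω) = x (g' Ω)
    rw [h]
  have h2 : tau Ω (x * g) = tau Ω (g' * x) := by simp only [tau, h1]
  rw [h2, tau_mul, tau_mul, hg, hg', h]

theorem tau_comm_of_gen (Ω : H) {s : Set (H →L[ℂ] H)} (hs : ∀ x ∈ s, star x = x)
    (X : StarSubalgebra ℂ (H →L[ℂ] H)) (hX : StarAlgebra.adjoin ℂ s ≤ X)
    (h : ∀ g ∈ s, ∀ x ∈ X, tau Ω (x * g) = tau Ω (g * x))
    {a : H →L[ℂ] H} (ha : a ∈ StarAlgebra.adjoin ℂ s) :
    ∀ x ∈ X, tau Ω (x * a) = tau Ω (a * x) := by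
  refine sa_induction hs (p := fun a => ∀ x ∈ X, tau Ω (x * a) = tau Ω (a * x)) h
    (fun c x _ => by simp) (fun a _ b _ ha hb x hx => ?_) (fun a ha' b hb' ha hb x hx => ?_) ha
  · rw [mul_add, add_mul, tau_add, tau_add, ha x hx, hb x hx]
  · rw [← mul_assoc, hb _ (X.mul_mem hx (hX ha')), ← mul_assoc, ha _ (X.mul_mem (hX hb') hx),
      mul_assoc]

/-- Left generators. -/
def gL (J : Set L) : Set (H →L[ℂ] H) := Set.range F.lam ∪ F.S '' {a | a.1 ∉ J}

/-- Right generators. -/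
def gR (J : Set L) : Set (H →L[ℂ] H) := Set.range F.rho ∪ F.R '' {a | a.1 ∉ J}

theorem gL_sa (J : Set L) : ∀ x ∈ gL F J, star x = x := by
  rintro x (⟨g, rfl⟩ | ⟨b, _, rfl⟩)
  · exact F.star_lam g
  · exact F.star_S b

theorem gR_sa (J : Set L) : ∀ x ∈ gR F J, star x = x := by
  rintro x (⟨g, rfl⟩ | ⟨b, _, rfl⟩)
  · exact F.star_rho g
  · exact F.star_R b

/-- Left algebra. -/
def AL (J : Set L) : StarSubalgebra ℂ (H →L[ℂ] H) := StarAlgebra.adjoin ℂ (gL F J)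

/-- Right algebra. -/
def AR (J : Set L) : StarSubalgebra ℂ (H →L[ℂ] H) := StarAlgebra.adjoin ℂ (gR F J)

theorem AL_le_NL (J : Set L) : AL F J ≤ F.NL J := StarSubalgebra.le_topologicalClosure _

theorem mem_M_of_mem_AL {J : Set L} {a : H →L[ℂ] H} (ha : a ∈ AL F J) : a ∈ F.M :=
  F.mem_M_of_mem_NL (AL_le_NL F J ha)

theorem commute_M_AR {J : Set L} {x a : H →L[ℂ] H} (hx : x ∈ F.M) (ha : a ∈ AR F J) :
    Commute x a := by
  refine commute_of_sa (gR_sa F J) ?_ ha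
  rintro y (⟨g, rfl⟩ | ⟨b, _, rfl⟩)
  · exact (F.mem_M.mp hx).1 g
  · exact (F.mem_M.mp hx).2 b

theorem cyc_L : ∀ (m : ℕ) (w : List (L × Γ)), w.length ≤ m → ∀ g,
    ∃ a ∈ AL F ∅, a F.Ω = F.e w g := by
  intro m
  induction m with
  | zero =>
    intro w hw g
    rw [List.length_eq_zero_iff.mp (Nat.le_zero.mp hw)]
    exact ⟨F.lam g, StarAlgebra.subset_adjoin ℂ _ (Or.inl ⟨g, rfl⟩), F.lam_Ω g⟩
  | succ m ih =>
    intro w hw g
    cases w with
    | nil => exact ih [] (by simp) g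
    | cons b w =>
      simp only [List.length_cons, Nat.add_le_add_iff_right] at hw
      obtain ⟨a, ha, hae⟩ := ih w hw g
      have hS : F.S b ∈ AL F ∅ := StarAlgebra.subset_adjoin ℂ _ (Or.inr ⟨b, by simp, rfl⟩)
      cases w with
      | nil =>
        refine ⟨F.S b * a, (AL F ∅).mul_mem hS ha, ?_⟩
        change F.S b (a F.Ω) = _
        rw [hae]
        simp [Fock.S, F.l_e, F.star_l_nil]
      | cons c w =>
        obtain ⟨a', ha', hae'⟩ := ih w (by simp at hw; omega) g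
        refine ⟨F.S b * a - (k1 F.φ b c : ℂ) • a',
          (AL F ∅).sub_mem ((AL F ∅).mul_mem hS ha) ((AL F ∅).smul_mem ha' _), ?_⟩
        change F.S b (a F.Ω) - (k1 F.φ b c : ℂ) • a' F.Ω = _
        rw [hae, hae']
        simp [Fock.S, F.l_e, F.star_l_cons]

theorem cyc_R : ∀ (m : ℕ) (w : List (L × Γ)), w.length ≤ m → ∀ g,
    ∃ a ∈ AR F ∅, a F.Ω = F.e w g := by
  intro m
  induction m with
  | zero =>
    intro w hw g
    rw [List.length_eq_zero_iff.mp (Nat.le_zero.mp hw)]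
    exact ⟨F.rho g, StarAlgebra.subset_adjoin ℂ _ (Or.inl ⟨g, rfl⟩), F.rho_Ω g⟩
  | succ m ih =>
    intro w hw g
    rcases List.eq_nil_or_concat w with rfl | ⟨w, b, rfl⟩
    · exact ih [] (by simp) g
    · simp only [List.concat_eq_append, List.length_append, List.length_cons, List.length_nil,
        zero_add, Nat.add_le_add_iff_right] at hw ⊢
      obtain ⟨a, ha, hae⟩ := ih w hw g
      have hS : F.R (b.1, g + b.2) ∈ AR F ∅ :=
        StarAlgebra.subset_adjoin ℂ _ (Or.inr ⟨_, by simp, rfl⟩)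
      rcases List.eq_nil_or_concat w with rfl | ⟨w, c, rfl⟩
      · refine ⟨F.R (b.1, g + b.2) * a, (AR F ∅).mul_mem hS ha, ?_⟩
        change F.R (b.1, g + b.2) (a F.Ω) = _
        rw [hae]
        simp [Fock.R, F.r_e, F.star_r_nil, F.add_self_left]
      · rw [List.concat_eq_append] at hw hae ⊢
        obtain ⟨a', ha', hae'⟩ := ih w (by simp at hw; omega) g
        refine ⟨F.R (b.1, g + b.2) * a - (k1 F.φ b c : ℂ) • a',
          (AR F ∅).sub_mem ((AR F ∅).mul_mem hS ha) ((AR F ∅).smul_mem ha' _), ?_⟩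
        change F.R (b.1, g + b.2) (a F.Ω) - (k1 F.φ b c : ℂ) • a' F.Ω = _
        rw [hae, hae']
        simp only [Fock.R, add_apply, F.r_e, F.star_r_snoc, F.add_self_left]
        simp

theorem dense_AL : Dense {v : H | ∃ a ∈ AL F ∅, a F.Ω = v} := by
  refine F.dense.mono fun v hv => ?_
  induction hv using Submodule.span_induction with
  | mem x hx =>
    obtain ⟨p, rfl⟩ := hx
    exact cyc_L F _ p.1 le_rfl p.2
  | zero => exact ⟨0, (AL F ∅).zero_mem, rfl⟩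
  | add x y _ _ hx hy =>
    obtain ⟨a, ha, rfl⟩ := hx
    obtain ⟨b, hb, rfl⟩ := hy
    exact ⟨a + b, (AL F ∅).add_mem ha hb, rfl⟩
  | smul c x _ hx =>
    obtain ⟨a, ha, rfl⟩ := hx
    exact ⟨c • a, (AL F ∅).smul_mem ha c, rfl⟩

/-- The vacuum is separating for `M`. -/
theorem eq_zero_of_apply {x : H →L[ℂ] H} (hx : x ∈ F.M) (h : x F.Ω = 0) : x = 0 :=
  F.ext_op fun w g => by
    obtain ⟨a, ha, hae⟩ := cyc_R F _ w le_rfl g
    have := congrArg (fun T : H →L[ℂ] H => T F.Ω) (commute_M_AR F hx ha).eq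
    simp only [mul_apply_eq_comp, h, map_zero, hae] at this
    simpa using this

theorem tau_comm_AL {J : Set L} {x a : H →L[ℂ] H} (hx : x ∈ F.M) (ha : a ∈ AL F J) :
    tau F.Ω (x * a) = tau F.Ω (a * x) := by
  refine tau_comm_of_gen F.Ω (gL_sa F J) F.M.toStarSubalgebra
    (fun b hb => mem_M_of_mem_AL F hb) ?_ ha x hx
  rintro y (⟨g, rfl⟩ | ⟨b, _, rfl⟩) x hx
  · exact tau_gen F.Ω (F.star_lam g) (F.star_rho g) (by rw [F.lam_Ω, F.rho_Ω])
      ((F.mem_M.mp hx).1 g)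
  · exact tau_gen F.Ω (F.star_S b) (F.star_R b) (by rw [F.S_Ω, F.R_Ω]) ((F.mem_M.mp hx).2 b)

theorem tau_comm_AR {J : Set L} {x a : H →L[ℂ] H} (hx : x ∈ AR F J) (ha : a ∈ AR F J) :
    tau F.Ω (x * a) = tau F.Ω (a * x) := by
  refine tau_comm_of_gen F.Ω (gR_sa F J) (AR F J) le_rfl ?_ ha x hx
  rintro y (⟨g, rfl⟩ | ⟨b, _, rfl⟩) x hx
  · exact tau_gen F.Ω (F.star_rho g) (F.star_lam g) (by rw [F.lam_Ω, F.rho_Ω])
      (commute_M_AR F (F.lam_mem_M g) hx).symm
  · exact tau_gen F.Ω (F.star_R b) (F.star_S b) (by rw [F.S_Ω, F.R_Ω])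
      (commute_M_AR F (F.S_mem_M b) hx).symm

theorem norm_star_AL {a : H →L[ℂ] H} (ha : a ∈ AL F ∅) : ‖star a F.Ω‖ = ‖a F.Ω‖ := by
  have h := tau_comm_AL F (mem_M_of_mem_AL F ha) (star_mem ha)
  rw [tau_mul, tau_mul, star_star, inner_self_eq_norm_sq_to_K, inner_self_eq_norm_sq_to_K] at h
  have h2 : ‖star a F.Ω‖ ^ 2 = ‖a F.Ω‖ ^ 2 := by exact_mod_cast h
  exact (pow_left_inj₀ (norm_nonneg _) (norm_nonneg _) two_ne_zero).mp h2

theorem norm_star_le {x : H →L[ℂ] H} (hx : x ∈ F.M) : ‖star x F.Ω‖ ≤ ‖x F.Ω‖ := by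
  have h : ∀ v : H, ‖⟪star x F.Ω, v⟫_ℂ‖ ≤ ‖v‖ * ‖x F.Ω‖ := by
    intro v
    refine closure_minimal (t := {v | ‖⟪star x F.Ω, v⟫_ℂ‖ ≤ ‖v‖ * ‖x F.Ω‖}) ?_
      (isClosed_le (by fun_prop) (by fun_prop)) (dense_AL F v)
    rintro _ ⟨a, ha, rfl⟩
    rw [Set.mem_ofPred_eq, ← tau_mul, tau_comm_AL F hx ha, tau_mul, ← norm_star_AL F ha]
    exact norm_inner_le_norm _ _
  have h1 := h (star x F.Ω)
  rw [inner_self_eq_norm_sq_to_K] at h1
  simp only [norm_pow, norm_algebraMap', norm_norm] at h1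
  rcases (norm_nonneg (star x F.Ω)).eq_or_lt with h0 | h0
  · rw [← h0]; exact norm_nonneg _
  · rw [sq] at h1
    exact le_of_mul_le_mul_left h1 h0

theorem isTracial : IsTracial F.M F.Ω := by
  refine ⟨F.norm_Ω, fun x hx y hy => ?_, fun x hx h => ?_⟩
  · have h : ∀ v : H, ‖tau F.Ω (x * y) - tau F.Ω (y * x)‖ ≤
        (‖star x F.Ω‖ + ‖x F.Ω‖) * ‖y F.Ω - v‖ := by
      intro v
      refine closure_minimal (t := {v | ‖tau F.Ω (x * y) - tau F.Ω (y * x)‖ ≤
        (‖star x F.Ω‖ + ‖x F.Ω‖) * ‖y F.Ω - v‖}) ?_ (isClosed_le (by fun_prop) (by fun_prop))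
        (dense_AL F v)
      rintro _ ⟨a, ha, rfl⟩
      have h1 : tau F.Ω (x * y) - tau F.Ω (y * x) =
          tau F.Ω (x * (y - a)) - tau F.Ω ((y - a) * x) := by
        rw [mul_sub, sub_mul, tau_sub, tau_sub, tau_comm_AL F hx ha]; ring
      have h2 : y - a ∈ F.M := F.M.toStarSubalgebra.sub_mem hy (mem_M_of_mem_AL F ha)
      have h3 := norm_star_le F h2
      have h4 : (y - a) F.Ω = y F.Ω - a F.Ω := rfl
      rw [Set.mem_ofPred_eq, h1, tau_mul, tau_mul, ← h4]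
      calc _ ≤ ‖⟪star x F.Ω, (y - a) F.Ω⟫_ℂ‖ + ‖⟪star (y - a) F.Ω, x F.Ω⟫_ℂ‖ := norm_sub_le _ _
        _ ≤ ‖star x F.Ω‖ * ‖(y - a) F.Ω‖ + ‖star (y - a) F.Ω‖ * ‖x F.Ω‖ :=
          add_le_add (norm_inner_le_norm _ _) (norm_inner_le_norm _ _)
        _ ≤ ‖star x F.Ω‖ * ‖(y - a) F.Ω‖ + ‖(y - a) F.Ω‖ * ‖x F.Ω‖ := by gcongr
        _ = _ := by ring
    have h1 := h (y F.Ω)
    rw [sub_self, norm_zero, mul_zero] at h1
    exact sub_eq_zero.mp (norm_le_zero_iff.mp h1)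
  · rw [tau_mul, star_star, inner_self_eq_zero] at h
    exact eq_zero_of_apply F hx h

/-- The closed span of the words with no letter in `J`. -/
def H0 (J : Set L) : Submodule ℂ H :=
  (Submodule.span ℂ {v | ∃ w g, (∀ c ∈ w, c.1 ∉ J) ∧ F.e w g = v}).topologicalClosure

theorem e_mem_H0 {J : Set L} {w : List (L × Γ)} (hw : ∀ c ∈ w, c.1 ∉ J) (g : Γ) :
    F.e w g ∈ H0 F J :=
  Submodule.le_topologicalClosure _ (Submodule.subset_span ⟨w, g, hw, rfl⟩)

theorem H0_le {J : Set L} {K : Submodule ℂ H} (hK : IsClosed (K : Set H))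
    (h : ∀ w g, (∀ c ∈ w, c.1 ∉ J) → F.e w g ∈ K) : H0 F J ≤ K :=
  Submodule.topologicalClosure_minimal _
    (Submodule.span_le.mpr (by rintro _ ⟨w, g, hw, rfl⟩; exact h w g hw)) hK

theorem maps_H0 {J : Set L} {T : H →L[ℂ] H}
    (h : ∀ w g, (∀ c ∈ w, c.1 ∉ J) → T (F.e w g) ∈ H0 F J) : ∀ v ∈ H0 F J, T v ∈ H0 F J :=
  fun _ hv => H0_le F (K := (H0 F J).comap (T : H →ₗ[ℂ] H))
    ((Submodule.isClosed_topologicalClosure _).preimage T.continuous) h hv

theorem apply_mem_H0 {J : Set L} {a : H →L[ℂ] H} (ha : a ∈ F.NL J) :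
    ∀ v ∈ H0 F J, a v ∈ H0 F J := by
  have hcl : IsClosed {a : H →L[ℂ] H | ∀ v ∈ H0 F J, a v ∈ H0 F J} := by
    simp only [Set.ofPred_forall]
    refine isClosed_iInter fun v => isClosed_iInter fun _ => ?_
    exact (Submodule.isClosed_topologicalClosure _).preimage
      (f := fun a : H →L[ℂ] H => a v) (by fun_prop)
  refine closure_minimal (fun b hb => ?_) hcl ha
  refine sa_induction (gL_sa F J) (p := fun b => ∀ v ∈ H0 F J, b v ∈ H0 F J) ?_
    (fun c v hv => (H0 F J).smul_mem c hv)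
    (fun x _ y _ hx hy v hv => (H0 F J).add_mem (hx v hv) (hy v hv))
    (fun x _ y _ hx hy v hv => hx _ (hy v hv)) hb
  rintro y (⟨g, rfl⟩ | ⟨b, hb, rfl⟩)
  · refine maps_H0 F fun w h hw => ?_
    rw [F.lam_e]
    refine e_mem_H0 F (fun c hc => ?_) _
    obtain ⟨d, hd, rfl⟩ := List.mem_map.mp hc
    exact hw d hd
  · refine maps_H0 F fun w h hw => ?_
    change F.l b (F.e w h) + star (F.l b) (F.e w h) ∈ _
    refine (H0 F J).add_mem ?_ ?_
    · rw [F.l_e]
      refine e_mem_H0 F (fun c hc => ?_) _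
      rcases List.mem_cons.mp hc with rfl | hc
      · exact hb
      · exact hw c hc
    · cases w with
      | nil => rw [F.star_l_nil]; exact (H0 F J).zero_mem
      | cons c w =>
        rw [F.star_l_cons]
        exact (H0 F J).smul_mem _ (e_mem_H0 F (fun d hd => hw d (List.mem_cons_of_mem _ hd)) _)

theorem star_l_H0 {J : Set L} {σ : L} (hσ : σ ∈ J) (β : Γ) :
    ∀ v ∈ H0 F J, star (F.l (σ, β)) v = 0 := by
  intro v hv
  refine H0_le F (K := LinearMap.ker ((star (F.l (σ, β)) : H →L[ℂ] H) : H →ₗ[ℂ] H))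
    (ContinuousLinearMap.isClosed_ker _) (fun w g hw => ?_) hv
  change star (F.l (σ, β)) (F.e w g) = 0
  cases w with
  | nil => exact F.star_l_nil _ _
  | cons c w =>
    have hc : σ ≠ c.1 := fun e => hw c (by simp) (e ▸ hσ)
    rw [F.star_l_cons]
    simp [k1, hc]

theorem star_l_apply {J : Set L} {a : H →L[ℂ] H} (ha : a ∈ F.NL J) {σ : L} (hσ : σ ∈ J) (β : Γ) :
    star (F.l (σ, β)) (a F.Ω) = 0 :=
  star_l_H0 F hσ β _ (apply_mem_H0 F ha _ (e_mem_H0 F (by simp) 0))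

theorem star_l_mul_mlt {J : Set L} {a : H →L[ℂ] H} (ha : a ∈ F.NL J) {σ : L} (hσ : σ ∈ J)
    (β : Γ) (b c : L × Γ) : star (F.l (σ, β)) * a * F.mlt b c = 0 :=
  F.ext_op fun w g => by
    change star (F.l (σ, β)) (a (F.mlt b c (F.e w g))) = 0
    by_cases hw : w = []
    · subst hw
      rw [F.mlt_nil]
      exact star_l_H0 F hσ β _ (apply_mem_H0 F ha _
        ((H0 F J).smul_mem _ (e_mem_H0 F (by simp) g)))
    · simp [F.mlt_of_ne b c hw]

theorem star_l_mul_r (a b : L × Γ) :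
    star (F.l b) * F.r a = F.r a * star (F.l b) + F.mlt a b := by
  have h := F.star_mlt a b
  rw [← h]
  simp [Fock.mlt]

theorem key_identity {J : Set L} (hJ : ∀ σ ∈ J, F.IsNoise σ) {a : H →L[ℂ] H} (ha : a ∈ F.NL J)
    {σ σ' : L} (hσ : σ ∈ J) (hσ' : σ' ∈ J) :
    star (F.l (σ, 0)) * a * F.l (σ', 0) = (if σ = σ' then tau F.Ω a else 0) • 1 := by
  have haM := F.mem_M.mp (F.mem_M_of_mem_NL ha)
  have hX : star (F.l (σ, 0)) * a * F.l (σ', 0) ∈ F.M := by
    refine F.mem_M.mpr ⟨fun g => ((F.star_l_rho _ g).mul_left (haM.1 g)).mul_left (F.l_rho _ g),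
      fun c => ?_⟩
    have h1 : F.l (σ', 0) * F.R c = F.R c * F.l (σ', 0) - F.mlt c (σ', 0) := by
      simp only [Fock.R, Fock.mlt, mul_add, add_mul, (F.l_r (σ', 0) c).eq]
      abel
    have h2 : star (F.l (σ, 0)) * F.R c = F.R c * star (F.l (σ, 0)) + F.mlt c (σ, 0) := by
      simp only [Fock.R, mul_add, add_mul, star_l_mul_r, (F.l_r (σ, 0) c).star_star.eq]
      abel
    have h3 := star_l_mul_mlt F ha hσ 0 c (σ', 0)
    have h4 := congrArg star (star_l_mul_mlt F (star_mem ha) hσ' 0 c (σ, 0))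
    simp only [star_mul, star_star, F.star_mlt, star_zero] at h4
    change _ * _ = _ * _
    calc star (F.l (σ, 0)) * a * F.l (σ', 0) * F.R c
        = star (F.l (σ, 0)) * (a * F.R c) * F.l (σ', 0)
          - star (F.l (σ, 0)) * a * F.mlt c (σ', 0) := by
          rw [mul_assoc _ (F.l (σ', 0)), h1]; noncomm_ring
      _ = (star (F.l (σ, 0)) * F.R c) * a * F.l (σ', 0) := by
          rw [h3, (haM.2 c).eq]; noncomm_ring
      _ = F.R c * (star (F.l (σ, 0)) * a * F.l (σ', 0))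
          + F.mlt c (σ, 0) * (a * F.l (σ', 0)) := by rw [h2]; noncomm_ring
      _ = _ := by rw [h4, add_zero]
  refine sub_eq_zero.mp (eq_zero_of_apply F
    (F.M.toStarSubalgebra.sub_mem hX (F.M.toStarSubalgebra.smul_mem (one_mem _) _)) ?_)
  have h1 : a (F.l (σ', 0) F.Ω) = F.r (σ', 0) (a F.Ω) := by
    rw [F.l_Ω, ← F.r_Ω]
    exact congrArg (fun T : H →L[ℂ] H => T F.Ω) (F.commute_r_of_mem_NL ha (c := (σ', 0)) hσ').eq
  have h2 := congrArg (fun T : H →L[ℂ] H => T (a F.Ω)) (star_l_mul_r F (σ', 0) (σ, 0))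
  simp only [mul_apply_eq_comp, add_apply,
    star_l_apply F ha hσ, map_zero, zero_add] at h2
  change star (F.l (σ, 0)) (a (F.l (σ', 0) F.Ω)) - (if σ = σ' then tau F.Ω a else 0) • F.Ω = 0
  rw [h1, h2, sub_eq_zero]
  refine F.ext_vec fun w g => ?_
  rw [F.inner_mlt, inner_smul_right]
  have h3 : ⟪F.e w g, F.Ω⟫_ℂ = if g = 0 then ((kw F.φ w [] : ℝ) : ℂ) else 0 := F.inner_e _ _ _ _
  rw [h3]
  by_cases hw : w = []
  · subst hw
    by_cases hs : σ = σ'
    · subst hs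
      by_cases hg : g = 0
      · subst hg
        simp [k1, kw, F.phi_zero, tau, Fock.Ω]
      · simp [k1, hJ σ hσ g, hg]
    · simp [k1, hs, Ne.symm hs]
  · obtain ⟨c, w, rfl⟩ := List.exists_cons_of_ne_nil hw
    simp [kw]

theorem commute_l_AR {J : Set L} {a : H →L[ℂ] H} (ha : a ∈ AR F J) {c : L × Γ} (hc : c.1 ∈ J) :
    Commute (F.l c) a := by
  refine commute_of_sa (gR_sa F J) ?_ ha
  rintro y (⟨g, rfl⟩ | ⟨b, hb, rfl⟩)
  · exact F.l_rho c g
  · refine (F.l_r c b).add_right ?_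
    have h := F.mlt_eq_zero (a := b) (b := c) (fun e => hb (e ▸ hc))
    exact (sub_eq_zero.mp h).symm

theorem inner_prod {J : Set L} (hJ : ∀ σ ∈ J, F.IsNoise σ) {a a' : H →L[ℂ] H}
    (ha : a ∈ AL F J) (ha' : a' ∈ AR F J) {σ σ' : L} (hσ : σ ∈ J) (hσ' : σ' ∈ J) :
    ⟪F.e [(σ, 0)] 0, (a * a') (F.e [(σ', 0)] 0)⟫_ℂ =
      (if σ = σ' then tau F.Ω a else 0) * tau F.Ω a' := by
  have h1 : a' (F.l (σ', 0) F.Ω) = F.l (σ', 0) (a' F.Ω) :=
    (congrArg (fun T : H →L[ℂ] H => T F.Ω) (commute_l_AR F ha' (c := (σ', 0)) hσ').eq).symm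
  have h2 := congrArg (fun T : H →L[ℂ] H => T (a' F.Ω))
    (key_identity F hJ (AL_le_NL F J ha) hσ hσ')
  simp only [mul_apply_eq_comp, smul_apply,
    one_apply_eq_self] at h2
  rw [← F.l_Ω, ← F.l_Ω, ← Fock.inner_star_right, mul_apply_eq_comp, h1, h2,
    inner_smul_right]
  rfl

/-- Products of a left and a right element. -/
def PP (J : Set L) : Set (H →L[ℂ] H) := {b | ∃ a ∈ AL F J, ∃ a' ∈ AR F J, a * a' = b}

theorem prod_mul {J : Set L} {a a' c c' : H →L[ℂ] H} (ha' : a' ∈ AR F J) (hc : c ∈ AL F J) :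
    a * a' * (c * c') = a * c * (a' * c') := by
  rw [mul_assoc, ← mul_assoc a', ← (commute_M_AR F (mem_M_of_mem_AL F hc) ha').eq]
  simp only [mul_assoc]

theorem mem_span_PP {J : Set L} {b : H →L[ℂ] H} (hb : b ∈ F.BB J) :
    b ∈ Submodule.span ℂ (PP F J) := by
  refine sa_induction (s := gL F J ∪ gR F J) (p := fun b => b ∈ Submodule.span ℂ (PP F J))
    (fun x hx => hx.elim (gL_sa F J x) (gR_sa F J x)) ?_
    (fun c => Submodule.smul_mem _ c
      (Submodule.subset_span ⟨1, one_mem _, 1, one_mem _, mul_one 1⟩))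
    (fun x _ y _ hx hy => Submodule.add_mem _ hx hy) (fun x hx' y hy' hx hy => ?_) hb
  · rintro x (hx | hx)
    · exact Submodule.subset_span
        ⟨x, StarAlgebra.subset_adjoin ℂ _ hx, 1, one_mem _, mul_one x⟩
    · exact Submodule.subset_span
        ⟨1, one_mem _, x, StarAlgebra.subset_adjoin ℂ _ hx, one_mul x⟩
  · clear hx' hy'
    induction hx, hy using Submodule.span_induction₂ with
    | mem_mem x y hx hy =>
      obtain ⟨a, ha, a', ha', rfl⟩ := hx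
      obtain ⟨c, hc, c', hc', rfl⟩ := hy
      exact Submodule.subset_span
        ⟨a * c, mul_mem ha hc, a' * c', mul_mem ha' hc', (prod_mul F ha' hc).symm⟩
    | zero_left y _ => simp
    | zero_right x _ => simp
    | add_left x y z _ _ _ h1 h2 => rw [add_mul]; exact Submodule.add_mem _ h1 h2
    | add_right x y z _ _ _ h1 h2 => rw [mul_add]; exact Submodule.add_mem _ h1 h2
    | smul_left r x y _ _ h => rw [smul_mul_assoc]; exact Submodule.smul_mem _ _ h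
    | smul_right r x y _ _ h => rw [mul_smul_comm]; exact Submodule.smul_mem _ _ h

theorem BB_off {J : Set L} (hJ : ∀ σ ∈ J, F.IsNoise σ) {b : H →L[ℂ] H} (hb : b ∈ F.BB J)
    {σ σ' : L} (hσ : σ ∈ J) (hσ' : σ' ∈ J) (hne : σ ≠ σ') :
    ⟪F.e [(σ, 0)] 0, b (F.e [(σ', 0)] 0)⟫_ℂ = 0 := by
  have h := mem_span_PP F hb
  clear hb
  induction h using Submodule.span_induction with
  | mem x hx =>
    obtain ⟨a, ha, a', ha', rfl⟩ := hx
    rw [inner_prod F hJ ha ha' hσ hσ', if_neg hne, zero_mul]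
  | zero => simp
  | add x y _ _ hx hy => rw [add_apply, inner_add_right, hx, hy, add_zero]
  | smul c x _ hx => rw [smul_apply, inner_smul_right, hx, mul_zero]

theorem BB_trace {J : Set L} (hJ : ∀ σ ∈ J, F.IsNoise σ) {b b' : H →L[ℂ] H} (hb : b ∈ F.BB J)
    (hb' : b' ∈ F.BB J) {σ σ' : L} (hσ : σ ∈ J) (hσ' : σ' ∈ J) :
    ⟪F.e [(σ, 0)] 0, (b * b') (F.e [(σ, 0)] 0)⟫_ℂ =
      ⟪F.e [(σ', 0)] 0, (b' * b) (F.e [(σ', 0)] 0)⟫_ℂ := by
  have h := mem_span_PP F hb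
  have h' := mem_span_PP F hb'
  clear hb hb'
  induction h, h' using Submodule.span_induction₂ with
  | mem_mem x y hx hy =>
    obtain ⟨a, ha, a', ha', rfl⟩ := hx
    obtain ⟨c, hc, c', hc', rfl⟩ := hy
    rw [prod_mul F ha' hc, prod_mul F hc' ha,
      inner_prod F hJ (mul_mem ha hc) (mul_mem ha' hc') hσ hσ,
      inner_prod F hJ (mul_mem hc ha) (mul_mem hc' ha') hσ' hσ', if_pos rfl, if_pos rfl,
      tau_comm_AL F (mem_M_of_mem_AL F ha) hc, tau_comm_AR F ha' hc']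
  | zero_left y _ => simp
  | zero_right x _ => simp
  | add_left x y z _ _ _ h1 h2 =>
    simp only [add_mul, mul_add, add_apply, inner_add_right, h1, h2]
  | add_right x y z _ _ _ h1 h2 =>
    simp only [add_mul, mul_add, add_apply, inner_add_right, h1, h2]
  | smul_left r x y _ _ h =>
    simp only [smul_mul_assoc, mul_smul_comm, smul_apply, inner_smul_right, h]
  | smul_right r x y _ _ h =>
    simp only [smul_mul_assoc, mul_smul_comm, smul_apply, inner_smul_right, h]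

end Pool.Agent.MP_ce43bb_an.H93
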